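import Pool.Agent.W_MP_c466d4_an.Defs
import Pool.Agent.W_MP_c466d4_an.Main

namespace Pool.Agent.Results.MP_c466d4_an.ExactLpNorms

open Pool.Agent.W_MP_c466d4_an

/-- For `1 < p < ∞` the norms on `L^p(𝕋)` of `I - K_n` (all `n ≥ 0`) and of `I - P_r`
(all `0 ≤ r < 1`) are all equal to the classical constant
`C_p = max_{0 ≤ α ≤ 1} (α^{p-1}+(1-α)^{p-1})^{1/p} (α^{1/(p-1)}+(1-α)^{1/(p-1)})^{1-1/p}`. -/
theorem result (p : ℝ) (hp : 1 < p) :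
    ∃ C : ℝ, IsGreatest (cpFun p '' Set.Icc (0 : ℝ) 1) C ∧
      (∀ n : ℕ, normIdSub (ENNReal.ofReal p) (fejerKernel n) = ENNReal.ofReal C) ∧
      (∀ r : ℝ, 0 ≤ r → r < 1 →
        normIdSub (ENNReal.ofReal p) (poissonKernel r) = ENNReal.ofReal C) :=
  main p hp

end Pool.Agent.Results.MP_c466d4_an.ExactLpNorms
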